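import Pool.Agent.J4H23.SB.Nh

set_option autoImplicit false

namespace Pool.Agent.J4H23.NH

open Finset Pool.Agent.NPC Pool.Agent.H49R2.PC Pool.Agent.J4H63.DB Pool.Agent.J4H23.SB

/-- strings of length `n` -/
def St (n : ℕ) : Set (List Bool) := {r | r.length = n}

theorem st_fin (n : ℕ) : (St n).Finite := finite_strings n

theorem st_card (n : ℕ) : (St n).ncard = 2 ^ n := ncard_strings n

theorem pairs_fin (l n : ℕ) (B : List Bool → List Bool → Prop) :
    {x : List Bool × List Bool | x.1.length = l ∧ x.2.length = n ∧ B x.1 x.2}.Finite :=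
  ((finite_strings l).prod (finite_strings n)).subset fun _ hx => ⟨hx.1, hx.2.1⟩

theorem pairs_compl (l n : ℕ) (A : List Bool → List Bool → Prop) :
    {x : List Bool × List Bool | x.1.length = l ∧ x.2.length = n ∧ A x.1 x.2}.ncard +
      {x : List Bool × List Bool | x.1.length = l ∧ x.2.length = n ∧ ¬ A x.1 x.2}.ncard =
        2 ^ (l + n) := by
  rw [← Set.ncard_union_eq ?_ (pairs_fin l n A) (pairs_fin l n fun a b => ¬ A a b)]
  · have h : {x : List Bool × List Bool | x.1.length = l ∧ x.2.length = n ∧ A x.1 x.2} ∪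
        {x : List Bool × List Bool | x.1.length = l ∧ x.2.length = n ∧ ¬ A x.1 x.2} =
        {r : List Bool | r.length = l} ×ˢ {r : List Bool | r.length = n} := by
      ext x
      simp only [Set.mem_union, Set.mem_ofPred_eq, Set.mem_prod]
      tauto
    rw [h, Set.ncard_prod, ncard_strings, ncard_strings, pow_add]
  · rw [Set.disjoint_left]
    rintro x ⟨-, -, h1⟩ ⟨-, -, h2⟩
    exact h2 h1

theorem bound_A (l P q : ℕ) (A : List Bool → List Bool → Prop) (h : l + P ≤ q) :
    {r : List Bool | r.length = q ∧ A (r.take l) ((r.drop l).take P)}.ncard ≤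
      {x : List Bool × List Bool | x.1.length = l ∧ x.2.length = P ∧ A x.1 x.2}.ncard *
        2 ^ (q - l - P) := by
  rw [← ncard_strings (q - l - P), ← Set.ncard_prod]
  refine Set.ncard_le_ncard_of_injOn (fun r => ((r.take l, (r.drop l).take P), (r.drop l).drop P))
    ?_ ?_ ((pairs_fin l P A).prod (finite_strings _))
  · rintro r ⟨h1, h2⟩
    refine ⟨⟨?_, ?_, h2⟩, ?_⟩
    · simp only [List.length_take]; omega
    · simp only [List.length_take, List.length_drop]; omega
    · simp only [Set.mem_ofPred_eq, List.length_drop]; omega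
  · rintro r - r' - h2
    simp only [Prod.mk.injEq] at h2
    obtain ⟨⟨e1, e2⟩, e3⟩ := h2
    rw [← List.take_append_drop l r, ← List.take_append_drop l r', e1,
      ← List.take_append_drop P (r.drop l), ← List.take_append_drop P (r'.drop l), e2, e3]

theorem bound_B (l P q : ℕ) (A : List Bool → List Bool → Prop) (h : l + P + P ≤ q) :
    {r : List Bool | r.length = q ∧ A (r.take l) (((r.drop l).drop P).take P)}.ncard ≤
      {x : List Bool × List Bool | x.1.length = l ∧ x.2.length = P ∧ A x.1 x.2}.ncard *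
        2 ^ (q - l - P) := by
  rw [← ncard_strings (q - l - P), ← Set.ncard_prod]
  refine Set.ncard_le_ncard_of_injOn (fun r => ((r.take l, ((r.drop l).drop P).take P),
    (r.drop l).take P ++ ((r.drop l).drop P).drop P))
    ?_ ?_ ((pairs_fin l P A).prod (finite_strings _))
  · rintro r ⟨h1, h2⟩
    refine ⟨⟨?_, ?_, h2⟩, ?_⟩
    · simp only [List.length_take]; omega
    · simp only [List.length_take, List.length_drop]; omega
    · simp only [Set.mem_ofPred_eq, List.length_append, List.length_take, List.length_drop]; omega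
  · rintro r ⟨h1, -⟩ r' ⟨h1', -⟩ h2
    simp only [Prod.mk.injEq] at h2
    obtain ⟨⟨e1, e2⟩, e3⟩ := h2
    obtain ⟨e4, e5⟩ := List.append_inj e3 (by
      simp only [List.length_take, List.length_drop]; omega)
    rw [← List.take_append_drop l r, ← List.take_append_drop l r', e1,
      ← List.take_append_drop P (r.drop l), ← List.take_append_drop P (r'.drop l), e4,
      ← List.take_append_drop P ((r.drop l).drop P), ← List.take_append_drop P ((r'.drop l).drop P),
      e2, e5]

theorem bound_T (l q : ℕ) (T : List Bool → Prop) (h : l ≤ q) :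
    {r : List Bool | r.length = q ∧ T (r.take l)}.ncard ≤
      {r : List Bool | r.length = l ∧ T r}.ncard * 2 ^ (q - l) := by
  rw [← ncard_strings (q - l), ← Set.ncard_prod]
  refine Set.ncard_le_ncard_of_injOn (fun r => (r.take l, r.drop l)) ?_ ?_
    (((finite_strings l).subset fun _ hr => hr.1).prod (finite_strings _))
  · rintro r ⟨h1, h2⟩
    refine ⟨⟨?_, h2⟩, ?_⟩
    · simp only [List.length_take]; omega
    · simp only [Set.mem_ofPred_eq, List.length_drop]; omega
  · rintro r - r' - h2
    simp only [Prod.mk.injEq] at h2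
    rw [← List.take_append_drop l r, ← List.take_append_drop l r', h2.1, h2.2]

theorem t_CTG : S_CTG := by
  intro l P q A B T hq hA hB hT
  have a1 := pairs_compl l P A
  have b1 := pairs_compl l P B
  have a2 := bound_A l P q (fun x y => ¬ A x y) (by omega)
  have b2 := bound_B l P q (fun x y => ¬ B x y) hq
  have t2 := bound_T l q T (by omega)
  set nA := {x : List Bool × List Bool | x.1.length = l ∧ x.2.length = P ∧ ¬ A x.1 x.2}.ncard
  set nB := {x : List Bool × List Bool | x.1.length = l ∧ x.2.length = P ∧ ¬ B x.1 x.2}.ncard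
  set nT := {r : List Bool | r.length = l ∧ T r}.ncard
  have hA' : 10 * nA ≤ 2 ^ (l + P) := by omega
  have hB' : 10 * nB ≤ 2 ^ (l + P) := by omega
  set GA := {r : List Bool | r.length = q ∧ ¬ A (r.take l) ((r.drop l).take P)}
  set GB := {r : List Bool | r.length = q ∧ ¬ B (r.take l) (((r.drop l).drop P).take P)}
  set GT := {r : List Bool | r.length = q ∧ T (r.take l)}
  set GG := {r : List Bool | r.length = q ∧ A (r.take l) ((r.drop l).take P) ∧
    B (r.take l) (((r.drop l).drop P).take P) ∧ ¬ T (r.take l)}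
  have hsub : {r : List Bool | r.length = q} ⊆ GG ∪ (GA ∪ (GB ∪ GT)) := by
    intro r hr
    by_cases h1 : A (r.take l) ((r.drop l).take P)
    · by_cases h2 : B (r.take l) (((r.drop l).drop P).take P)
      · by_cases h3 : T (r.take l)
        · exact Or.inr (Or.inr (Or.inr ⟨hr, h3⟩))
        · exact Or.inl ⟨hr, h1, h2, h3⟩
      · exact Or.inr (Or.inr (Or.inl ⟨hr, h2⟩))
    · exact Or.inr (Or.inl ⟨hr, h1⟩)
  have hfin : (GG ∪ (GA ∪ (GB ∪ GT))).Finite := by
    refine (finite_strings q).subset ?_
    rintro r (h | h | h | h) <;> exact h.1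
  have h1 := Set.ncard_le_ncard hsub hfin
  rw [ncard_strings] at h1
  have h2 := (h1.trans (Set.ncard_union_le _ _)).trans
    (Nat.add_le_add_left ((Set.ncard_union_le _ _).trans
      (Nat.add_le_add_left (Set.ncard_union_le _ _) _)) _)
  have e1 : 2 ^ (l + P) * 2 ^ (q - l - P) = 2 ^ q := by rw [← pow_add]; congr 1; omega
  have e2 : 2 ^ l * 2 ^ (q - l) = 2 ^ q := by rw [← pow_add]; congr 1; omega
  have c1 : 10 * GA.ncard ≤ 2 ^ q := by
    calc 10 * GA.ncard ≤ 10 * (nA * 2 ^ (q - l - P)) := Nat.mul_le_mul_left _ a2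
      _ = (10 * nA) * 2 ^ (q - l - P) := by ring
      _ ≤ 2 ^ (l + P) * 2 ^ (q - l - P) := Nat.mul_le_mul_right _ hA'
      _ = 2 ^ q := e1
  have c2 : 10 * GB.ncard ≤ 2 ^ q := by
    calc 10 * GB.ncard ≤ 10 * (nB * 2 ^ (q - l - P)) := Nat.mul_le_mul_left _ b2
      _ = (10 * nB) * 2 ^ (q - l - P) := by ring
      _ ≤ 2 ^ (l + P) * 2 ^ (q - l - P) := Nat.mul_le_mul_right _ hB'
      _ = 2 ^ q := e1
  have c3 : 100 * GT.ncard ≤ 2 ^ q := by
    calc 100 * GT.ncard ≤ 100 * (nT * 2 ^ (q - l)) := Nat.mul_le_mul_left _ t2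
      _ = (100 * nT) * 2 ^ (q - l) := by ring
      _ ≤ 2 ^ l * 2 ^ (q - l) := Nat.mul_le_mul_right _ hT
      _ = 2 ^ q := e2
  omega

end Pool.Agent.J4H23.NH
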