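import Pool.Agent.J4H23.SB.Nh
import Pool.Agent.J4H98.SB.Pol
import Pool.Agent.J4H23.SB.NhMain

set_option autoImplicit false

namespace Pool.Agent.J4H23.NH

open Pool.Agent.NPC Pool.Agent.H49R2.PC Pool.Agent.J4H63.DB Pool.Agent.J4H23.SB

variable {α β : Type} [TEnc α] [TEnc β]

theorem drop_eq {β : Type} (l : List β) (n : ℕ) :
    l.drop n = (l.reverse.take (l.length - n)).reverse := by
  rw [List.take_reverse, List.reverse_reverse]
  rcases le_total n l.length with h | h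
  · congr 1
    omega
  · rw [List.drop_of_length_le h, List.drop_of_length_le (by omega)]

theorem p_drop {l : α → List β} {n : α → ℕ} (hl : NPC.Poly l) (hn : NPC.Poly n) :
    NPC.Poly (fun a => (l a).drop (n a)) :=
  (Poly.reverse (p_take (Poly.reverse hl) (NPC.Poly.sub (Poly.length hl) hn))).congr fun a =>
    (drop_eq (l a) (n a)).symm ▸ rfl

theorem p_nz {m J u v : α → ℕ} {r : α → List Bool} (hm : NPC.Poly m) (hJ : NPC.Poly J)
    (hr : NPC.Poly r) (hu : NPC.Poly u) (hv : NPC.Poly v) :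
    NPC.Poly (fun a => nz (m a) (J a) (r a) (u a) (v a)) := by
  unfold nz
  exact Poly.all (p := fun _ b => id b)
    (p_take (p_drop hr (NPC.Poly.mul (NPC.Poly.add (NPC.Poly.mul hu hm) hv) hJ)) hJ)
    (Poly.snd Poly.id)

theorem p_noisy {m J : α → ℕ} {H : α → List (ℕ × ℕ)} {r : α → List Bool} (hm : UPoly m)
    (hJ : NPC.Poly J) (hH : NPC.Poly H) (hr : NPC.Poly r) :
    NPC.Poly (fun a => noisy (m a) (H a) (J a) (r a)) := by
  unfold noisy
  refine Poly.pair hm.range (Poly.pair hm.range ?_)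
  refine Poly.filter (p := fun a (e : ℕ × ℕ) => decide (e ∈ H a) || nz (m a) (J a) (r a) e.1 e.2)
    (p_prodL hm.range hm.range) ?_
  refine Poly.or (p_mem_pair (Poly.snd Poly.id) (hH.comp (Poly.fst Poly.id))) ?_
  exact p_nz (hm.toPoly.comp (Poly.fst Poly.id)) (hJ.comp (Poly.fst Poly.id))
    (hr.comp (Poly.fst Poly.id)) (Poly.fst (Poly.snd Poly.id)) (Poly.snd (Poly.snd Poly.id))

theorem p_emb {G : α → BGr} (hG : NPC.Poly G) : NPC.Poly (fun a => emb (G a)) := by
  unfold emb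
  refine Poly.filter (p := fun a (e : ℕ × ℕ) =>
    decide (((G a).1.getD e.1 0, (G a).2.1.getD e.2 0) ∈ (G a).2.2))
    (p_prodL (UPoly.length (Poly.fst hG)).range (UPoly.length (Poly.fst (Poly.snd hG))).range) ?_
  have hG' : NPC.Poly (fun p : α × (ℕ × ℕ) => G p.1) := hG.comp (Poly.fst Poly.id)
  refine p_mem_pair (Poly.pair ?_ ?_) (Poly.snd (Poly.snd hG'))
  · exact Poly.getD (Poly.fst hG') (Poly.fst (Poly.snd Poly.id)) (NPC.Poly.const 0)
  · exact Poly.getD (Poly.fst (Poly.snd hG')) (Poly.snd (Poly.snd Poly.id)) (NPC.Poly.const 0)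

theorem p_ss {G : α → BGr} (hG : NPC.Poly G) : NPC.Poly (fun a => ss (G a)) := by
  unfold ss
  exact J4H98.SB.p_size (NPC.Poly.mul (NPC.Poly.const 100)
    (NPC.Poly.add (p_nV hG).toPoly (NPC.Poly.const 1)))

theorem u_ss {G : α → BGr} (hG : NPC.Poly G) : UPoly (fun a => ss (G a)) := by
  refine UPoly.of_le (p_ss hG) (UPoly.mul (UPoly.const 100) (UPoly.add (p_nV hG) (UPoly.const 1)))
    fun a => ?_
  unfold ss
  rw [Nat.size_le]
  exact Nat.lt_two_pow_self

theorem u_m {G : α → BGr} (k : ℕ) (hG : NPC.Poly G) : UPoly (fun a => 2 ^ (k * ss (G a))) := by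
  have h1 : UPoly (fun a => 2 ^ ss (G a)) :=
    UPoly.of_le (p_two_pow (u_ss hG)) (UPoly.mul (UPoly.const 200)
      (UPoly.add (p_nV hG) (UPoly.const 1))) fun a => (ss_spec (G a)).2
  have h2 := u_pow_const h1 k
  have e : (fun a => 2 ^ (k * ss (G a))) = fun a => (2 ^ ss (G a)) ^ k := by
    funext a
    rw [← pow_mul, mul_comm]
  rw [e]
  exact h2

theorem p_redAux {F : BGr × ℕ × List Bool → ℕ × ℕ} (hF : NPC.Poly F) {m J P N : α → ℕ}
    {G : α → BGr} {r : α → List Bool} (hm : UPoly m) (hJ : NPC.Poly J) (hP : NPC.Poly P)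
    (hN : NPC.Poly N) (hG : NPC.Poly G) (hr : NPC.Poly r) :
    NPC.Poly (fun a => redAux F (m a) (J a) (P a) (N a) (G a) (r a)) := by
  have hl : NPC.Poly (fun a => m a * m a * J a) :=
    NPC.Poly.mul (NPC.Poly.mul hm.toPoly hm.toPoly) hJ
  have h4N : NPC.Poly (fun a => 4 * N a) := NPC.Poly.mul (NPC.Poly.const 4) hN
  have hr1 := p_take hr hl
  have hr2 := p_drop hr hl
  have hA : NPC.Poly (fun a => F (noisy (m a) (emb (G a)) (J a) ((r a).take (m a * m a * J a)),
      4 * N a, ((r a).drop (m a * m a * J a)).take (P a))) :=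
    hF.comp (Poly.pair (p_noisy hm hJ (p_emb hG) hr1) (Poly.pair h4N (p_take hr2 hP)))
  have hB : NPC.Poly (fun a => F (noisy (m a) [] (J a) ((r a).take (m a * m a * J a)),
      4 * N a, (((r a).drop (m a * m a * J a)).drop (P a)).take (P a))) :=
    hF.comp (Poly.pair (p_noisy hm hJ (NPC.Poly.const []) hr1)
      (Poly.pair h4N (p_take (p_drop hr2 hP) hP)))
  unfold redAux
  refine Poly.pair (NPC.Poly.mul (NPC.Poly.mul (Poly.fst hA) (Poly.snd hB)) ?_)
    (NPC.Poly.mul (Poly.snd hA) (Poly.fst hB))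
  exact p_two_pow (p_nV hG)

theorem t_PLY : S_PLY := by
  intro F p k hF
  have hG : NPC.Poly (fun x : BGr × ℕ × List Bool => x.1) := Poly.fst Poly.id
  have hN : NPC.Poly (fun x : BGr × ℕ × List Bool => x.2.1) := Poly.fst (Poly.snd Poly.id)
  have hr : NPC.Poly (fun x : BGr × ℕ × List Bool => x.2.2) := Poly.snd (Poly.snd Poly.id)
  have hm := u_m k hG
  exact p_redAux hF hm (NPC.Poly.mul (NPC.Poly.const (k + 1)) (p_ss hG))
    (p_eval (NPC.Poly.add hm.toPoly (NPC.Poly.mul (NPC.Poly.const 4) hN)) p) hN hG hr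

end Pool.Agent.J4H23.NH
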