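import Pool.Agent.J4H23.SB.Nh

set_option autoImplicit false

namespace Pool.Agent.J4H23.NH

open Finset Pool.Agent.NPC Pool.Agent.H49R2.PC Pool.Agent.J4H63.DB Pool.Agent.J4H23.SB

theorem t_RAT : S_RAT := by
  intro N a1 a2 b1 b2 n I0 I1 I2 hN h0 h1 h2 hI hA hB
  obtain ⟨hA1, hA2⟩ := hA
  obtain ⟨hB1, hB2⟩ := hB
  have hN' : (2 : ℝ) ≤ N := by exact_mod_cast hN
  have h0' : (1 : ℝ) ≤ I0 := by exact_mod_cast h0
  have h1' : (1 : ℝ) ≤ I1 := by exact_mod_cast h1
  have h2' : (1 : ℝ) ≤ I2 := by exact_mod_cast h2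
  have hI' : (I1 : ℝ) * 2 ^ n = I0 * I2 := by exact_mod_cast hI
  push_cast at hA1 hA2 hB1 hB2 ⊢
  set e : ℝ := 1 / (4 * (N : ℝ)) with he
  have he0 : 0 < e := by positivity
  have he8 : e ≤ 1 / 8 := by
    rw [he, div_le_div_iff₀ (by positivity) (by norm_num)]
    linarith
  have hNe : 1 / (N : ℝ) = 4 * e := by
    rw [he]
    field_simp
  set a : ℝ := (a1 : ℝ) / a2 with ha
  set b : ℝ := (b1 : ℝ) / b2 with hb
  have ha0 : 0 < a := lt_of_lt_of_le (by nlinarith) hA1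
  have hb0 : 0 < b := lt_of_lt_of_le (by nlinarith) hB1
  have e1 : ((a1 : ℝ) * b2 * 2 ^ n) / ((a2 : ℝ) * b1) = a * 2 ^ n / b := by
    have ha2 : (a2 : ℝ) ≠ 0 := by
      rintro h
      rw [ha, h, div_zero] at ha0
      exact lt_irrefl _ ha0
    have hb1 : (b1 : ℝ) ≠ 0 := by
      rintro h
      rw [hb, h, zero_div] at hb0
      exact lt_irrefl _ hb0
    have hb2 : (b2 : ℝ) ≠ 0 := by
      rintro h
      rw [hb, h, div_zero] at hb0
      exact lt_irrefl _ hb0
    rw [ha, hb]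
    field_simp
  rw [Approx, e1, hNe]
  have hp : (0 : ℝ) < 2 ^ n := by positivity
  constructor
  · rw [le_div_iff₀ hb0]
    calc (1 - 4 * e) * I0 * b ≤ (1 - 4 * e) * I0 * ((1 + e) * I2) := by
          refine mul_le_mul_of_nonneg_left hB2 ?_
          have : 0 ≤ 1 - 4 * e := by linarith
          positivity
      _ = ((1 - 4 * e) * (1 + e)) * (I0 * I2) := by ring
      _ ≤ (1 - e) * (I0 * I2) := by
          refine mul_le_mul_of_nonneg_right ?_ (by positivity)
          nlinarith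
      _ = (1 - e) * I1 * 2 ^ n := by rw [← hI']; ring
      _ ≤ a * 2 ^ n := mul_le_mul_of_nonneg_right hA1 hp.le
  · rw [div_le_iff₀ hb0]
    calc a * 2 ^ n ≤ (1 + e) * I1 * 2 ^ n := mul_le_mul_of_nonneg_right hA2 hp.le
      _ = (1 + e) * (I0 * I2) := by rw [← hI']; ring
      _ ≤ ((1 + 4 * e) * (1 - e)) * (I0 * I2) := by
          refine mul_le_mul_of_nonneg_right ?_ (by positivity)
          nlinarith
      _ = (1 + 4 * e) * I0 * ((1 - e) * I2) := by ring
      _ ≤ (1 + 4 * e) * I0 * b := by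
          refine mul_le_mul_of_nonneg_left hB1 ?_
          positivity

end Pool.Agent.J4H23.NH
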