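import Pool.Agent.J4H23.SB.Nh

set_option autoImplicit false

namespace Pool.Agent.J4H23.NH

open Finset Pool.Agent.NPC Pool.Agent.H49R2.PC Pool.Agent.J4H63.DB Pool.Agent.J4H23.SB

theorem block_le (L i J : ℕ) (h : i + J ≤ L) :
    {r : List Bool | r.length = L ∧ ((r.drop i).take J).all id = true}.ncard * 2 ^ J ≤ 2 ^ L := by
  have h1 : {r : List Bool | r.length = L ∧ ((r.drop i).take J).all id = true}.ncard ≤
      {r : List Bool | r.length = L - J}.ncard := by
    refine Set.ncard_le_ncard_of_injOn (fun r => r.take i ++ (r.drop i).drop J) ?_ ?_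
      (finite_strings _)
    · rintro r ⟨h1, -⟩
      simp only [Set.mem_ofPred_eq, List.length_append, List.length_take, List.length_drop]
      omega
    · rintro r ⟨h1, h2⟩ r' ⟨h1', h2'⟩ h3
      simp only at h3
      obtain ⟨e1, e2⟩ := List.append_inj h3 (by simp only [List.length_take]; omega)
      have key : ∀ s : List Bool, s.length = L → ((s.drop i).take J).all id = true →
          (s.drop i).take J = List.replicate J true := by
        intro s hs hs2
        rw [List.eq_replicate_iff]
        refine ⟨by simp only [List.length_take, List.length_drop]; omega, fun x hx => ?_⟩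
        exact List.all_eq_true.1 hs2 x hx
      rw [← List.take_append_drop i r, ← List.take_append_drop i r', e1,
        ← List.take_append_drop J (r.drop i), ← List.take_append_drop J (r'.drop i), e2,
        key r h1 h2, key r' h1' h2']
  rw [ncard_strings] at h1
  calc _ ≤ 2 ^ (L - J) * 2 ^ J := Nat.mul_le_mul_right _ h1
    _ = 2 ^ L := by rw [← pow_add]; congr 1; omega

theorem t_TCH : S_TCH := by
  classical
  intro m J a b ha hb
  set K : Finset (ℕ × ℕ) := (range a ×ˢ range m) ∪ (range m ×ˢ range b) with hK
  have hKc : K.card ≤ (a + b) * m := by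
    refine (card_union_le _ _).trans ?_
    rw [card_product, card_product, card_range, card_range, card_range]
    apply le_of_eq
    ring
  have hsub : {r : List Bool | r.length = m * m * J ∧
      ∃ u v : ℕ, u < m ∧ v < m ∧ (u < a ∨ v < b) ∧ nz m J r u v = true} ⊆
      ⋃ e ∈ K, {r : List Bool | r.length = m * m * J ∧ nz m J r e.1 e.2 = true} := by
    rintro r ⟨h1, u, v, hu, hv, huv, h2⟩
    simp only [Set.mem_iUnion]
    refine ⟨(u, v), ?_, h1, h2⟩
    rw [hK, mem_union, mem_product, mem_product, mem_range, mem_range, mem_range, mem_range]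
    rcases huv with h | h
    · exact Or.inl ⟨h, hv⟩
    · exact Or.inr ⟨hu, h⟩
  have hfin : ∀ e : ℕ × ℕ,
      {r : List Bool | r.length = m * m * J ∧ nz m J r e.1 e.2 = true}.Finite := fun e =>
    (finite_strings _).subset fun _ hr => hr.1
  have h1 : {r : List Bool | r.length = m * m * J ∧
      ∃ u v : ℕ, u < m ∧ v < m ∧ (u < a ∨ v < b) ∧ nz m J r u v = true}.ncard ≤
      ∑ e ∈ K, {r : List Bool | r.length = m * m * J ∧ nz m J r e.1 e.2 = true}.ncard := by
    refine (Set.ncard_le_ncard hsub ?_).trans ?_
    · exact Set.Finite.biUnion K.finite_toSet fun e _ => hfin e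
    · clear hsub hKc
      induction K using Finset.induction_on with
      | empty => simp
      | insert e K he ih =>
        rw [Finset.set_biUnion_insert, sum_insert he]
        exact (Set.ncard_union_le _ _).trans (Nat.add_le_add_left ih _)
  have h2 : ∀ e ∈ K, {r : List Bool | r.length = m * m * J ∧ nz m J r e.1 e.2 = true}.ncard *
      2 ^ J ≤ 2 ^ (m * m * J) := by
    intro e he
    have hlt : e.1 < m ∧ e.2 < m := by
      rw [hK, mem_union, mem_product, mem_product, mem_range, mem_range, mem_range, mem_range] at he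
      omega
    refine block_le (m * m * J) ((e.1 * m + e.2) * J) J ?_
    have h3 : e.1 * m + e.2 + 1 ≤ m * m := by
      calc e.1 * m + e.2 + 1 ≤ e.1 * m + m := by omega
        _ = (e.1 + 1) * m := by ring
        _ ≤ m * m := Nat.mul_le_mul_right _ hlt.1
    calc (e.1 * m + e.2) * J + J = (e.1 * m + e.2 + 1) * J := by ring
      _ ≤ m * m * J := Nat.mul_le_mul_right _ h3
  calc _ ≤ (∑ e ∈ K, {r : List Bool | r.length = m * m * J ∧ nz m J r e.1 e.2 = true}.ncard) *
        2 ^ J := Nat.mul_le_mul_right _ h1
    _ = ∑ e ∈ K, {r : List Bool | r.length = m * m * J ∧ nz m J r e.1 e.2 = true}.ncard * 2 ^ J :=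
        sum_mul _ _ _
    _ ≤ ∑ _e ∈ K, 2 ^ (m * m * J) := sum_le_sum h2
    _ = K.card * 2 ^ (m * m * J) := by rw [sum_const, smul_eq_mul]
    _ ≤ (a + b) * m * 2 ^ (m * m * J) := Nat.mul_le_mul_right _ hKc

end Pool.Agent.J4H23.NH
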